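import Pool.Agent.Z15P.Z15.W.Stm
import Pool.Agent.Z15P.Z15.S.L1

/-!
The families of lines through `z`.
-/

set_option autoImplicit false

open FF FF.PP MvPolynomial Pool.Agent.Z15P.Z15.H Pool.Agent.Z15P.Z15.J Pool.Agent.Z15P.Z15.J.Stm Pool.Agent.Z15P.Z15.S
open Pool.Agent.Z15P.Z15.W

namespace Pool.Agent.Z15P.T2h38.W15

open Pool.Agent.Z15P.T2h62.H15 (li_iff li_of_minor exists_minor)

section

variable {ι K1 : Type} [Fintype ι] [Field K1]

theorem lm_phiY (Y : Finset ι) (C : ι → K1) {κ : Type} [Field κ] [Algebra K1 κ]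
    (e : {i // i ∈ Y} ⊕ Unit → κ) [DecidablePred (· ∈ Y)] :
    lm (phiY Y C) e = fun i => e (Sum.inr ()) * algebraMap K1 κ (C i) +
      (if h : i ∈ Y then e (Sum.inl ⟨i, h⟩) else 0) := by
  classical
  funext i
  unfold lm phiY
  rw [Fintype.sum_sum_type, add_comm]
  simp only [Finset.univ_unique, PUnit.default_eq_unit, Finset.sum_singleton, Sum.elim_inr,
    Sum.elim_inl]
  congr 1
  split_ifs with h
  · rw [Finset.sum_eq_single ⟨i, h⟩]
    · rw [Pi.single_eq_same, map_one, mul_one]
    · rintro ⟨b, hb⟩ _ hne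
      have h1 : i ≠ b := fun h2 => hne (Subtype.ext h2.symm)
      rw [Pi.single_eq_of_ne h1, map_zero, mul_zero]
    · intro h1
      exact absurd (Finset.mem_univ _) h1
  · refine Finset.sum_eq_zero fun b _ => ?_
    have h1 : i ≠ b.1 := fun h2 => h (h2 ▸ b.2)
    rw [Pi.single_eq_of_ne h1, map_zero, mul_zero]

theorem lm_phiY_elim (Y : Finset ι) (C : ι → K1) {κ : Type} [Field κ] [Algebra K1 κ]
    (y : ι → κ) (v : κ) (hy : Supp Y y) :
    lm (phiY Y C) (Sum.elim (fun i => y i.1) fun _ => v) =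
      fun i => v * algebraMap K1 κ (C i) + y i := by
  classical
  rw [lm_phiY]
  funext i
  simp only [Sum.elim_inr, Sum.elim_inl]
  split_ifs with h
  · rfl
  · rw [hy i h]

end

theorem key (hCO : S_CO) (hMIX : S_MIX) {K : Type} [Field K] [Infinite K] {ι α : Type} [Fintype ι]
    {F : α → MvPolynomial ι K} {d m : α → ℕ} {X Y : Finset ι}
    (hF : ∀ a, (F a).IsHomogeneous (d a)) (hm : ∀ a, m a < d a) (hXY : Disjoint X Y)
    (hMix : ∀ a, Mix (F a) X Y (m a)) {K1 : Type} [Field K1] [Algebra K K1] {z C : ι → K1}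
    (hz : Supp X z) (hco : ∀ a, ∀ j, j + m a < d a → co (F a) z C j = 0)
    {κ : Type} [Field κ] [Algebra K1 κ] [Algebra K κ] [IsScalarTower K K1 κ]
    (e : {i // i ∈ Y} ⊕ Unit → κ) :
    (∀ x, aeval e (HY F d m Y z C x) = 0) ↔
      ∀ a, Vanish (F a) (cst κ z) (lm (phiY Y C) e) := by
  classical
  have hH : ∀ x, aeval e (HY F d m Y z C x) =
      co (F x.1) (cst κ z) (lm (phiY Y C) e) (d x.1 - x.2) := fun x =>
    hf_eval (F x.1) z (phiY Y C) (d x.1 - x.2) κ e
  constructor
  · intro h a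
    obtain ⟨-, h2, -, h4, h5, -⟩ := hCO K ι (F a) (d a) (hF a)
    rw [h2]
    intro j hj
    by_cases hjm : j + m a < d a
    · have hsz : Supp X (cst κ z) := fun i hi => by
        unfold cst
        rw [hz i hi, map_zero]
      have hsy : Supp Y (fun i => if h : i ∈ Y then e (Sum.inl ⟨i, h⟩) else 0) := fun i hi => by
        simp only [hi, dite_false]
      rw [lm_phiY, hMIX K ι (F a) (d a) (m a) X Y (hF a) hXY (hMix a) κ (cst κ z)
        (fun i => e (Sum.inr ()) * algebraMap K1 κ (C i)) _ hsz hsy j hjm, (h5 κ _ _ _ j hj).1]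
      have h6 := h4 K1 κ (IsScalarTower.toAlgHom K K1 κ) z C j
      have h7 : co (F a) (cst κ z) (fun i => algebraMap K1 κ (C i)) j =
          algebraMap K1 κ (co (F a) z C j) := h6
      rw [h7, hco a j hjm, map_zero, mul_zero]
    · have h6 := hH ⟨a, ⟨d a - j, by omega⟩⟩
      simp only at h6
      have h7 : d a - (d a - j) = j := by omega
      rw [h7, h] at h6
      exact h6.symm
  · intro h x
    rw [hH]
    have h1 := (hCO K ι (F x.1) (d x.1) (hF x.1)).2.1 κ (cst κ z) (lm (phiY Y C) e)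
    exact h1.1 (h x.1) _ (Nat.sub_le _ _)

theorem t_W_GOODYi : W_GOODYi := by
  intro hCO hMIX K _ _ ι α _ _ F d m X Y hF hm hXY hMix K1 _ _ z C hli hz hC hco
  classical
  have hz0 : z ≠ 0 := by
    intro h0
    refine one_ne_zero ((li_iff.1 hli) 1 0 ?_).1
    rw [h0, smul_zero, zero_smul, add_zero]
  refine ⟨⟨fun κ _ _ e he _ => ?_, fun κ _ _ _ _ e he => ?_⟩, fun κ _ _ y v hy => ?_,
    fun κ _ _ _ _ y v hy => ?_⟩
  · rw [lm_phiY]
    by_cases hv : e (Sum.inr ()) = 0
    · obtain ⟨b, hb⟩ : ∃ b, e (Sum.inl b) ≠ 0 := by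
        by_contra h
        push Not at h
        apply he
        funext x
        rcases x with b | u
        · exact h b
        · exact hv
      obtain ⟨i, hi⟩ : ∃ i, z i ≠ 0 := by
        by_contra h
        push Not at h
        exact hz0 (funext h)
      have hzb : z b.1 = 0 := hz b.1 (fun h => Finset.disjoint_left.1 hXY h b.2)
      refine li_of_minor (i := i) (j := b.1) ?_
      simp only [cst, hv, zero_mul, zero_add, hzb, map_zero, sub_zero, b.2, dite_true]
      exact mul_ne_zero ((map_ne_zero _).2 hi) hb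
    · obtain ⟨i, j, hij⟩ := exists_minor hli
      have hzY : ∀ i ∈ Y, z i = 0 := fun i hi => hz i (fun h => Finset.disjoint_left.1 hXY h hi)
      have hi : i ∉ Y := by
        intro h
        apply hij
        rw [hzY i h, hC i h]
        ring
      have hj : j ∉ Y := by
        intro h
        apply hij
        rw [hzY j h, hC j h]
        ring
      refine li_of_minor (i := i) (j := j) ?_
      simp only [cst, hi, hj, dite_false, add_zero]
      have h1 : algebraMap K1 κ (z i) * (e (Sum.inr ()) * algebraMap K1 κ (C j)) -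
          algebraMap K1 κ (z j) * (e (Sum.inr ()) * algebraMap K1 κ (C i)) =
          e (Sum.inr ()) * algebraMap K1 κ (z i * C j - z j * C i) := by
        rw [map_sub, map_mul, map_mul]
        ring
      rw [h1]
      exact mul_ne_zero hv ((map_ne_zero _).2 hij)
  · exact (key hCO hMIX hF hm hXY hMix hz hco e).1 he
  · exact lm_phiY_elim Y C y v hy
  · rw [key hCO hMIX hF hm hXY hMix hz hco, lm_phiY_elim Y C y v hy]

end Pool.Agent.Z15P.T2h38.W15
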