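import Pool.Agent.Z15P.Z15.W.Stm
import Pool.Agent.Z15P.Z15.S.L1
import Pool.Agent.Z15P.T2h62.J15.SLi

/-!
Up to a finite extension, all families of lines through points `z` are special.
-/

set_option autoImplicit false

open FF FF.PP MvPolynomial Pool.Agent.Z15P.Z15.H Pool.Agent.Z15P.Z15.J Pool.Agent.Z15P.Z15.J.Stm Pool.Agent.Z15P.Z15.S
open Pool.Agent.Z15P.Z15.W

namespace Pool.Agent.Z15P.T2h38.W15

open Pool.Agent.Z15P.T2h62.H15 (li_iff li_of_minor exists_minor)
open Pool.Agent.Z15P.T2h62.J15 (nat_of_le Vanish.span li_map)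

/-- the field of definition -/
theorem exists_K1 {K κ D : Type} [Field K] [Field κ] [Algebra K κ] [Field D] [Algebra K D]
    [Algebra D κ] [IsScalarTower K D κ] {ι : Type} [Finite ι] {n : ℕ}
    (hD : Algebra.trdeg K D ≤ n) (z C : ι → κ) (hz : ∀ i, IsAlgebraic D (z i))
    (hC : ∀ i, IsAlgebraic D (C i)) :
    ∃ (K1 : IntermediateField K κ) (δ : ℕ), IsFG δ K K1 ∧ δ ≤ n ∧ (∀ i, z i ∈ K1) ∧
      ∀ i, C i ∈ K1 := by
  classical
  let K1 : IntermediateField K κ := IntermediateField.adjoin K (Set.range z ∪ Set.range C)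
  have hK1 : Algebra.EssFiniteType K K1 := by
    rw [IntermediateField.essFiniteType_iff]
    exact IntermediateField.fg_adjoin_of_finite ((Set.finite_range z).union (Set.finite_range C))
  have hK1tr : Algebra.trdeg K K1 ≤ n := by
    let Db : IntermediateField D κ := algebraicClosure D κ
    have hle : K1 ≤ Db.restrictScalars K := by
      rw [IntermediateField.adjoin_le_iff]
      rintro _ (⟨a, rfl⟩ | ⟨a, rfl⟩)
      · exact mem_algebraicClosure_iff.2 (hz a)
      · exact mem_algebraicClosure_iff.2 (hC a)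
    have h1 : Algebra.trdeg K K1 ≤ Algebra.trdeg K Db :=
      trdeg_le_of_injective (IntermediateField.inclusion hle : K1 →ₐ[K] Db.restrictScalars K)
        (IntermediateField.inclusion_injective hle)
    have h2 : Algebra.trdeg K D + Algebra.trdeg D Db = Algebra.trdeg K Db := trdeg_add_eq K D
    have h3 : Algebra.trdeg D Db = 0 := trdeg_eq_zero
    rw [← h2, h3, add_zero] at h1
    exact h1.trans hD
  obtain ⟨δ, hδ, hδn⟩ := nat_of_le hK1tr
  exact ⟨K1, δ, ⟨hK1, hδ⟩, hδn, fun i => IntermediateField.subset_adjoin _ _ (Or.inl ⟨i, rfl⟩),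
    fun i => IntermediateField.subset_adjoin _ _ (Or.inr ⟨i, rfl⟩)⟩

theorem t_W_SLi : W_SLi := by
  intro hCYC hCO hSOLVE hMIX K _ _ ι α _ _ _ F d m X Y hF hm hXY hMix hX p n κ _ _ htr z B hz hli
    hVB hVp
  classical
  have hcκ : Infinite κ := Infinite.of_injective _ (algebraMap K κ).injective
  have hz0 : z ≠ 0 := by
    intro h0
    refine one_ne_zero ((li_iff.1 hli) 1 0 ?_).1
    rw [h0, smul_zero, zero_smul, add_zero]
  have hcoB : ∀ a, ∀ j ≤ d a, co (F a) z B j = 0 := fun a =>
    ((hCO K ι (F a) (d a) (hF a)).2.1 κ z B).1 (hVB a)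
  by_cases hC : ∃ i ∉ Y, ∃ j ∉ Y, z i * B j - z j * B i ≠ 0
  · -- case A
    obtain ⟨i, hi, j, hj, hij⟩ := hC
    obtain ⟨C, hCdef⟩ : ∃ C : ι → κ, C = fun i => if i ∈ Y then 0 else B i := ⟨_, rfl⟩
    obtain ⟨y, hydef⟩ : ∃ y : ι → κ, y = fun i => if i ∈ Y then B i else 0 := ⟨_, rfl⟩
    have hBsum : B = fun i => 1 * C i + y i := by
      funext i
      rw [hCdef, hydef]
      by_cases h : i ∈ Y <;> simp [h]
    have hyY : Supp Y y := fun i hi => by rw [hydef]; simp only [hi, if_false]
    obtain ⟨K1, δ, h1, h2, h3, h4⟩ := exists_K1 (D := κ) (n := n) htr.le z C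
      (fun i => isAlgebraic_algebraMap (z i)) (fun i => isAlgebraic_algebraMap (C i))
    refine ⟨1, δ, one_pos, h2, κ, inferInstance, inferInstance, K1, z, C, y, 1, htr, h1, h3, h4, ?_, hz,
      fun i hi => by rw [hCdef]; simp only [hi, if_true], hVp, fun a j hj => ?_, hyY,
      Or.inr one_ne_zero, fun a => ?_, ?_⟩
    · refine li_of_minor (i := i) (j := j) ?_
      rw [hCdef]
      simp only [hi, hj, if_false]
      exact hij
    · have h5 := hMIX K ι (F a) (d a) (m a) X Y (hF a) hXY (hMix a) κ z C y hz hyY j hj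
      rw [← h5]
      have h6 : (fun i => C i + y i) = B := by
        rw [hBsum]
        funext i
        rw [one_mul]
      rw [h6]
      exact hcoB a j (by omega)
    · rw [← hBsum]
      exact hVB a
    · rw [← hBsum, one_smul]
  · -- case B
    push Not at hC
    obtain ⟨i0, hi0⟩ : ∃ i, z i ≠ 0 := by
      by_contra h
      push Not at h
      exact hz0 (funext h)
    have hXmem : ∀ i, z i ≠ 0 → i ∈ X := fun i hi => by
      by_contra h
      exact hi (hz i h)
    have hi0X := hXmem i0 hi0
    have hi0Y : i0 ∉ Y := Finset.disjoint_left.1 hXY hi0X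
    obtain ⟨y, hy⟩ : ∃ y : ι → κ, y = fun i => B i - B i0 / z i0 * z i := ⟨_, rfl⟩
    have hyY : Supp Y y := by
      intro i hi
      have h1 := hC i0 hi0Y i hi
      rw [hy]
      field_simp
      linear_combination h1
    have hy0 : y ≠ 0 := by
      intro h0
      refine one_ne_zero ((li_iff.1 hli) (-(B i0 / z i0)) 1 ?_).2
      funext i
      have h1 := congrFun h0 i
      rw [hy] at h1
      simp only [Pi.zero_apply] at h1
      simp only [Pi.add_apply, Pi.smul_apply, smul_eq_mul, Pi.zero_apply]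
      linear_combination h1
    obtain ⟨j0, hj0⟩ : ∃ j, y j ≠ 0 := by
      by_contra h
      push Not at h
      exact hy0 (funext h)
    have hj0Y : j0 ∈ Y := by
      by_contra h
      exact hj0 (hyY j0 h)
    have hzj0 : z j0 = 0 := hz j0 (fun h => Finset.disjoint_left.1 hXY h hj0Y)
    have hliy : LinearIndependent κ ![z, y] := by
      refine li_of_minor (i := i0) (j := j0) ?_
      rw [hzj0, zero_mul, sub_zero]
      exact mul_ne_zero hi0 hj0
    have hymem : y ∈ Submodule.span κ {z, B} := by
      rw [Submodule.mem_span_pair]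
      refine ⟨-(B i0 / z i0), 1, ?_⟩
      funext i
      rw [hy]
      simp only [Pi.add_apply, Pi.smul_apply, smul_eq_mul]
      ring
    have hzmem : z ∈ Submodule.span κ {z, B} := Submodule.subset_span (by simp)
    have hcy : cyc K (gen z y) = cyc K (gen z B) :=
      (hCYC K ι κ).2.2.2.2.2.2.1 z B z y hli hliy hzmem hymem
    have hVy : ∀ a, Vanish (F a) z y := fun a => Vanish.span (hVB a) hzmem hymem
    -- another direction
    obtain ⟨κ', _, _, _, _, w, hfin', hw0, hwX, hw⟩ := hSOLVE K κ ι (Σ a, Fin (d a - m a - 1))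
      (fun x => F x.1) (fun x => d x.1) (fun x => hF x.1) (fun _ => z) (fun x => x.2 + 1) (by
        rintro ⟨a, i⟩
        have := i.2
        simp only
        omega) (X.erase i0) (by
        rw [Fintype.card_sigma, Finset.card_erase_of_mem hi0X]
        simp only [Fintype.card_fin]
        have h1 : ∑ a, (d a - m a - 1) + Fintype.card α ≤ ∑ a, d a := by
          rw [Fintype.card_eq_sum_ones, ← Finset.sum_add_distrib]
          exact Finset.sum_le_sum fun a _ => by have := hm a; omega
        have h2 : 0 < Fintype.card α := Fintype.card_pos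
        omega)
    obtain ⟨l0, hl0⟩ : ∃ l, w l ≠ 0 := by
      by_contra h
      push Not at h
      exact hw0 (funext h)
    have hl0X : l0 ∈ X.erase i0 := by
      by_contra h
      exact hl0 (hwX l0 h)
    have hwi0 : w i0 = 0 := hwX i0 (Finset.notMem_erase _ _)
    obtain ⟨z', hz'⟩ : ∃ z' : ι → κ', z' = fun i => algebraMap κ κ' (z i) := ⟨_, rfl⟩
    obtain ⟨y', hy'⟩ : ∃ y' : ι → κ', y' = fun i => algebraMap κ κ' (y i) := ⟨_, rfl⟩
    have hsupp : ∀ (S : Finset ι) (x : ι → κ), Supp S x → Supp S (fun i => algebraMap κ κ' (x i)) := by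
      intro S x hx i hi
      simp only
      rw [hx i hi, map_zero]
    have htr' : Algebra.trdeg K κ' = n := by
      have h2 : Algebra.trdeg K κ + Algebra.trdeg κ κ' = Algebra.trdeg K κ' := trdeg_add_eq K κ
      rw [← h2, trdeg_eq_zero (R := κ) (A := κ'), add_zero, htr]
    obtain ⟨K1, δ, h1, h2, h3, h4⟩ := exists_K1 (D := κ') (n := n) htr'.le z' w
      (fun i => isAlgebraic_algebraMap (z' i)) (fun i => isAlgebraic_algebraMap (w i))
    refine ⟨Module.finrank κ κ', δ, Module.finrank_pos, h2, κ', inferInstance, inferInstance, K1,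
      z', w, y', 0, htr', h1, h3, h4, ?_, ?_, fun i hi => ?_, fun a => ?_, fun a j hj => ?_,
      ?_, Or.inl ?_, fun a => ?_, ?_⟩
    · refine li_of_minor (i := i0) (j := l0) ?_
      rw [hwi0, mul_zero, sub_zero, hz']
      exact mul_ne_zero ((map_ne_zero _).2 hi0) hl0
    · rw [hz']
      exact hsupp X z hz
    · refine hwX i fun h => Finset.disjoint_left.1 hXY (Finset.mem_of_mem_erase h) hi
    · have h5 := Vanish.ext (κ' := κ') (hVp a)
      rw [hz']
      have h6 : cst κ' p = fun i => algebraMap κ κ' (cst κ p i) := by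
        funext i
        exact IsScalarTower.algebraMap_apply K κ κ' (p i)
      rw [h6]
      exact h5
    · rcases Nat.eq_zero_or_pos j with rfl | hj0
      · have h2 := ((hCO K ι (F a) (d a) (hF a)).2.2.1 κ' z' w).1
        have h3 := ((hCO K ι (F a) (d a) (hF a)).2.2.1 κ z B).1
        rw [h2, hz']
        have h4 : aeval (fun i => algebraMap κ κ' (z i)) (F a) = algebraMap κ κ' (aeval z (F a)) :=
          (comp_aeval_apply _ (IsScalarTower.toAlgHom K κ κ') (F a)).symm
        rw [h4, ← h3, hcoB a 0 (Nat.zero_le _), map_zero]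
      · have h2 := hw ⟨a, ⟨j - 1, by omega⟩⟩
        simp only at h2
        have h3 : j - 1 + 1 = j := by omega
        rw [h3] at h2
        rw [hz']
        exact h2
    · rw [hy']
      exact hsupp Y y hyY
    · intro h0
      apply hj0
      have h5 := congrFun h0 j0
      rw [hy'] at h5
      exact (map_eq_zero _).1 h5
    · have h1 : (fun i => 0 * w i + y' i) = y' := by
        funext i
        rw [zero_mul, zero_add]
      rw [h1, hz', hy']
      exact Vanish.ext (hVy a)
    · have h1 : (fun i => 0 * w i + y' i) = y' := by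
        funext i
        rw [zero_mul, zero_add]
      rw [h1, hz', hy', (hCYC K ι κ).2.2.2.2.1 κ' z y, hcy]

end Pool.Agent.Z15P.T2h38.W15
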