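import Pool.Agent.Z15P.T2h38.W15.SL
import Pool.Agent.Z15P.T2h38.W15.GOODY
import Pool.Agent.Z15P.T2h62.J15.SVi
import Pool.Agent.Z15P.Z15.S.Pen

/-!
Vertical terms are special families of lines with a smaller `δ`.
-/

set_option autoImplicit false

open FF FF.PP MvPolynomial Pool.Agent.Z15P.Z15.H Pool.Agent.Z15P.Z15.J Pool.Agent.Z15P.Z15.J.Stm Pool.Agent.Z15P.Z15.S
open Pool.Agent.Z15P.Z15.W

namespace Pool.Agent.Z15P.T2h38.W15

open Pool.Agent.Z15P.T2h62.H15 (li_iff li_of_minor exists_minor)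
open Pool.Agent.Z15P.T2h62.J15 (nat_of_le Vanish.span li_map lim_vanish lim_mem exists_second)

/-- the low coefficients in the direction `r z + s C` -/
theorem co_low {k ι A : Type} [Field k] [Fintype ι] [CommRing A] [Algebra k A] {F : MvPolynomial ι k}
    {d m : ℕ} (hF : F.IsHomogeneous d) {z C : ι → A} (h : ∀ j, j + m < d → co F z C j = 0) (r s : A)
    (j : ℕ) (hj : j + m < d) : co F z (fun i => r * z i + s * C i) j = 0 := by
  have h1 := pl_expand hF z C (1 + Polynomial.X * Polynomial.C r) (Polynomial.X * Polynomial.C s)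
  have h2 : (fun i => (1 + Polynomial.X * Polynomial.C r) * Polynomial.C (z i) +
      Polynomial.X * Polynomial.C s * Polynomial.C (C i)) =
      fun i => Polynomial.C (z i) + Polynomial.X * Polynomial.C (r * z i + s * C i) := by
    funext i
    rw [map_add, map_mul, map_mul]
    ring
  rw [h2] at h1
  unfold co
  rw [h1, Polynomial.finset_sum_coeff]
  refine Finset.sum_eq_zero fun j' _ => ?_
  by_cases hj' : j' ≤ j
  · rw [h j' (by omega), Polynomial.C_0, zero_mul, zero_mul, Polynomial.coeff_zero]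
  · have h3 : Polynomial.C (co F z C j') * (1 + Polynomial.X * Polynomial.C r) ^ (d - j') *
        (Polynomial.X * Polynomial.C s) ^ j' =
        (Polynomial.C (co F z C j') * (1 + Polynomial.X * Polynomial.C r) ^ (d - j') *
          Polynomial.C s ^ j') * Polynomial.X ^ j' := by
      rw [mul_pow]
      ring
    rw [h3, Polynomial.coeff_mul_X_pow', if_neg hj']

theorem t_W_SVi : W_SVi := by
  intro hCYC hLIM hABH hCO hMIX hGOOD K _ _ ι α _ _ F d m X Y hF hm hXY hMix p n δ K1 _ _ hK1 z C hli hz hC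
    hVp hco c hc
  classical
  obtain ⟨M, _, _, _, _, t, Q, a, b, hQ, hQG, hx1, htr, hlim, rfl⟩ := hc
  have hgood := (hGOOD K ι α F d m X Y hF hm hXY hMix K1 z C hli hz hC hco).1
  have hVan := hgood.2 M Q hQG
  have hV0 : ∀ g, Vanish (F g) a b := fun g => lim_vanish hlim (hVan g)
  obtain ⟨v, hv⟩ : ∃ v : M, v = Q (Sum.inr ()) := ⟨_, rfl⟩
  obtain ⟨y, hy⟩ : ∃ y : ι → M, y = fun i => if h : i ∈ Y then Q (Sum.inl ⟨i, h⟩) else 0 := ⟨_, rfl⟩
  have hyY : Supp Y y := fun i hi => by rw [hy]; simp only [hi, dite_false]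
  have hlm : lm (phiY Y C) Q = fun i => v * algebraMap K1 M (C i) + y i := by
    rw [lm_phiY, hv, hy]
  have hzY : ∀ i ∈ Y, z i = 0 := fun i hi => hz i (fun h => Finset.disjoint_left.1 hXY h hi)
  rw [hlm] at hlim
  have hcz : cst M z = fun i => algebraMap K1 M (z i) := rfl
  rw [hcz] at hlim
  -- the place below
  obtain ⟨e0, t0, hov⟩ := exists_over t hx1
  obtain ⟨m', hm1, hm2⟩ := hABH K K1 δ hK1.2 t0
  obtain ⟨z0, x0, p0, r, s, hp, hs, hzx0, hz0, hx0, hlim0⟩ := (hLIM K ι K1 z C hli t0).1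
  let i3 : Algebra t0.RF t.RF := (hov.resMap : t0.RF →+* t.RF).toAlgebra
  have s3 : IsScalarTower K t0.RF t.RF :=
    IsScalarTower.of_algebraMap_eq fun a => (hov.resMap.commutes a).symm
  have hres : ∀ q : t0.RF, algebraMap t0.RF t.RF q = hov.resMap q := fun _ => rfl
  have hlimM := (hLIM K ι K1 z C hli t0).2.2.2.2 M t e0 hov z0 x0 hlim0
  have hzxM : LinearIndependent M ![fun i => algebraMap K1 M (z i), fun i => algebraMap K1 M (C i)] :=
    li_map _ hli
  -- `z0`, `x0`
  have hz0X : Supp X z0 := fun i hi => by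
    rw [← (hz0 i).2, hz i hi, mul_zero, t0.red_zero]
  have hx0Y : ∀ i ∈ Y, x0 i = 0 := fun i hi => by
    rw [← (hx0 i).2, hzY i hi, hC i hi, mul_zero, mul_zero, add_zero, t0.red_zero]
  have hcored : ∀ g, ∀ j, j + m g < d g → co (F g) z0 x0 j = 0 := by
    intro g j hj
    have h1 := (red_co hCO (hF g) t0 (P := fun i => p0 * z i) (w := fun i => r * z i + s * C i)
      (fun i => (hz0 i).1) (fun i => (hx0 i).1) j).2
    have e1 : (fun i => t0.red (p0 * z i)) = z0 := funext fun i => (hz0 i).2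
    have e2 : (fun i => t0.red (r * z i + s * C i)) = x0 := funext fun i => (hx0 i).2
    rw [e1, e2] at h1
    rw [← h1]
    obtain ⟨-, -, -, -, h5, -⟩ := hCO K ι (F g) (d g) (hF g)
    rw [(h5 K1 z (fun i => r * z i + s * C i) p0 j (by omega)).2.1,
      co_low (hF g) (hco g) r s j hj, mul_zero, t0.red_zero]
  have hVpred : ∀ g, Vanish (F g) (cst t0.RF p) z0 := by
    intro g
    obtain ⟨-, h2, -, -, h5, -⟩ := hCO K ι (F g) (d g) (hF g)
    rw [h2]
    intro j hj
    have hreg : ∀ i, t0.Reg (cst K1 p i) := fun i => t0.reg_const _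
    have h1 := (red_co hCO (hF g) t0 (P := cst K1 p) (w := fun i => p0 * z i)
      hreg (fun i => (hz0 i).1) j).2
    have e1 : (fun i => t0.red (cst K1 p i)) = cst t0.RF p := rfl
    have e2 : (fun i => t0.red (p0 * z i)) = z0 := funext fun i => (hz0 i).2
    rw [e1, e2] at h1
    rw [← h1, (h5 K1 (cst K1 p) z p0 j hj).1, ((h2 K1 _ _).1 (hVp g)) j hj, mul_zero, t0.red_zero]
  -- vectors over the residue field of `t`
  obtain ⟨Z, hZ⟩ : ∃ Z : ι → t.RF, Z = fun i => hov.resMap (z0 i) := ⟨_, rfl⟩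
  obtain ⟨W, hW⟩ : ∃ W : ι → t.RF, W = fun i => hov.resMap (x0 i) := ⟨_, rfl⟩
  rw [← hZ, ← hW] at hlimM
  have hZX : Supp X Z := fun i hi => by rw [hZ]; simp only; rw [hz0X i hi, map_zero]
  have hZY : ∀ i ∈ Y, Z i = 0 := fun i hi => hZX i (fun h => Finset.disjoint_left.1 hXY h hi)
  have hWY : ∀ i ∈ Y, W i = 0 := fun i hi => by rw [hW]; simp only; rw [hx0Y i hi, map_zero]
  have hZ0 : Z ≠ 0 := by
    intro h0
    have h1 : z0 = 0 := by
      funext i
      have h2 := congrFun h0 i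
      rw [hZ] at h2
      exact (map_eq_zero _).1 h2
    exact one_ne_zero ((li_iff.1 hzx0) 1 0 (by rw [h1]; simp)).1
  have hliZW : LinearIndependent t.RF ![Z, W] := by
    rw [hZ, hW]
    exact li_map (hov.resMap : t0.RF →+* t.RF) hzx0
  -- projections to the coordinates outside `Y`
  have hproj : ∀ q ∈ Submodule.span t.RF {a, b}, (fun i => if i ∈ Y then 0 else q i) ∈
      Submodule.span t.RF {Z, W} := by
    have hab : ∀ (q : ι → t.RF) (p' q' : M), (∀ i, t.Reg (p' * algebraMap K1 M (z i) +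
        q' * (v * algebraMap K1 M (C i) + y i)) ∧
        t.red (p' * algebraMap K1 M (z i) + q' * (v * algebraMap K1 M (C i) + y i)) = q i) →
        (fun i => if i ∈ Y then 0 else q i) ∈ Submodule.span t.RF {Z, W} := by
      intro q p' q' h
      refine (hLIM K ι M _ _ hzxM t).2.1 _ _ hlimM p' (q' * v) _ (fun i => ?_)
      by_cases hi : i ∈ Y
      · simp only [hi, if_true]
        rw [hzY i hi, hC i hi, map_zero, mul_zero, mul_zero, add_zero]
        exact ⟨t.reg_zero, t.red_zero⟩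
      · simp only [hi, if_false]
        have h1 := h i
        rw [hyY i hi, add_zero, ← mul_assoc] at h1
        exact h1
    intro q hq
    rw [Submodule.mem_span_pair] at hq
    obtain ⟨α', β', rfl⟩ := hq
    obtain ⟨-, p1, q1, r1, s1, -, hA, hB⟩ := hlim
    have h3 : (fun i => if i ∈ Y then (0 : t.RF) else (α' • a + β' • b) i) =
        α' • (fun i => if i ∈ Y then 0 else a i) + β' • (fun i => if i ∈ Y then 0 else b i) := by
      funext i
      by_cases hi : i ∈ Y <;> simp [hi]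
    rw [h3]
    exact Submodule.add_mem _ (Submodule.smul_mem _ α' (hab a p1 q1 hA))
      (Submodule.smul_mem _ β' (hab b r1 s1 hB))
  -- the first vector
  have hm1' : Z ∈ Submodule.span t.RF {a, b} := by
    refine lim_mem (c := algebraMap K1 M p0) (c' := 0) hlim (fun i => ?_)
    rw [zero_mul, add_zero, ← map_mul]
    have h1 := hov.resMap_red (hz0 i).1
    rw [(hz0 i).2] at h1
    rw [hZ]
    exact ⟨hov.reg.2 (hz0 i).1, h1.symm⟩
  obtain ⟨v1, hv1, hli1⟩ := exists_second hlim.1 hZ0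
  have hpr := hproj v1 hv1
  rw [Submodule.mem_span_pair] at hpr
  obtain ⟨μ, v0, hμ⟩ := hpr
  obtain ⟨y0, hy0⟩ : ∃ y0 : ι → t.RF, y0 = fun i => if i ∈ Y then v1 i else 0 := ⟨_, rfl⟩
  have hy0Y : Supp Y y0 := fun i hi => by rw [hy0]; simp only [hi, if_false]
  have hv2 : (fun i => v0 * W i + y0 i) = v1 - μ • Z := by
    funext i
    have h1 := congrFun hμ i
    simp only [Pi.add_apply, Pi.smul_apply, smul_eq_mul] at h1
    simp only [Pi.sub_apply, Pi.smul_apply, smul_eq_mul, hy0]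
    by_cases hi : i ∈ Y
    · simp only [hi, if_true]
      rw [hZY i hi, hWY i hi]
      ring
    · simp only [hi, if_false] at h1 ⊢
      linear_combination h1
  have hm2' : (fun i => v0 * W i + y0 i) ∈ Submodule.span t.RF {a, b} := by
    rw [hv2]
    exact Submodule.sub_mem _ hv1 (Submodule.smul_mem _ _ hm1')
  have hli2 : LinearIndependent t.RF ![Z, fun i => v0 * W i + y0 i] := by
    rw [hv2, li_iff]
    intro α' β' h0
    have h1 := (li_iff.1 hli1) (α' - β' * μ) β' (by
      rw [← h0]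
      module)
    refine ⟨?_, h1.2⟩
    have h2 := h1.1
    rw [h1.2, zero_mul, sub_zero] at h2
    exact h2
  have hyv : y0 ≠ 0 ∨ v0 ≠ 0 := by
    by_contra h
    push Not at h
    refine one_ne_zero ((li_iff.1 hli2) 0 1 ?_).2
    funext i
    simp [h.1, h.2]
  obtain ⟨K1', δ', h1, h2, h3, h4⟩ := exists_K1 (D := t0.RF) (κ := t.RF) (n := m') hm2.le Z W
    (fun i => by rw [hZ]; exact isAlgebraic_algebraMap (z0 i))
    (fun i => by rw [hW]; exact isAlgebraic_algebraMap (x0 i))
  refine ⟨1, δ', one_pos, by omega, t.RF, inferInstance, inferInstance, K1', Z, W, y0, v0, htr, h1, h3,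
    h4, hliZW, hZX, hWY, fun g => ?_, fun g j hj => ?_, hy0Y, hyv,
    fun g => Vanish.span (hV0 g) hm1' hm2', ?_⟩
  · obtain ⟨-, h2, -, h4, -⟩ := hCO K ι (F g) (d g) (hF g)
    rw [h2]
    intro j hj
    have h5 := h4 t0.RF t.RF hov.resMap (cst t0.RF p) z0 j
    rw [((h2 t0.RF _ _).1 (hVpred g)) j hj, map_zero] at h5
    rw [hZ, ← h5]
    congr 1
    funext i
    exact (hov.resMap.commutes (p i)).symm
  · obtain ⟨-, -, -, h4, -⟩ := hCO K ι (F g) (d g) (hF g)
    have h5 := h4 t0.RF t.RF hov.resMap z0 x0 j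
    rw [hcored g j hj, map_zero] at h5
    rw [hZ, hW]
    exact h5
  · rw [one_smul]
    exact ((hCYC K ι t.RF).2.2.2.2.2.2.1 a b _ _ hlim.1 hli2 hm1' hm2').symm

end Pool.Agent.Z15P.T2h38.W15
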